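import Pool.Agent.P.MP_775916_co.Final

namespace Pool.Agent.Results.MP_775916_co.SemisatInfinite

open Pool.Agent.P.MP_775916_co

/-- For each variant, the semisaturation functions of edge-ordered graphs attain infinitely many
orders of magnitude. -/
theorem result : ∀ x : Variant, Set.Infinite {C : Set (ℕ → ℝ) |
    ∃ (W : Type) (_ : Finite W) (G : EOGraph W), G.graph ≠ ⊥ ∧
      C = {g : ℕ → ℝ | Asymptotics.IsTheta Filter.atTop g fun n : ℕ => (ssat x G n : ℝ)}} :=
  fun x => ssat_infinite x _ fun k => ⟨_, inferInstance, GG k, fun h => by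
    have := pat_adjE (k := k) (N := 2 * MM k) (.root true)
    change (GG k).graph.Adj _ _ at this
    rw [h] at this
    exact this, rfl⟩

end Pool.Agent.Results.MP_775916_co.SemisatInfinite
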